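import Pool.Agent.H18.VZ.Targets

/-!
# Logarithmic forms: common lemmas for LA1, LA2, LA3
-/

open MvPolynomial
open Pool.Agent.H12.ZD (pmap)
open Pool.Agent.H18.HIT Pool.Agent.H18.HX Pool.Agent.H18.VZ

namespace Pool.Agent.H49.VZ

section poly

variable {N : ℕ} {k : Type} [Field k]

theorem fse_up (c : Po N k) : finSuccEquiv k N (up c) = Polynomial.C c := by
  unfold up
  induction c using MvPolynomial.induction_on with
  | C a => rw [rename_C, finSuccEquiv_apply]; simp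
  | add p q hp hq => rw [map_add, map_add, hp, hq, Polynomial.C_add]
  | mul_X p l hp => rw [map_mul, map_mul, hp, rename_X, finSuccEquiv_X_succ, Polynomial.C_mul]

theorem not_dvd_up {P : Po (N + 1) k} {r : ℕ} (hP : Hyp P r) {c : Po N k} (hc : c ≠ 0) :
    ¬ P ∣ up c := by
  rintro ⟨d, hd⟩
  have h1 := congrArg (finSuccEquiv k N) hd
  rw [fse_up, map_mul] at h1
  have hm : (finSuccEquiv k N P).Monic := hP.mon
  have hC : Polynomial.C c ≠ 0 := Polynomial.C_ne_zero.2 hc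
  have hd0 : finSuccEquiv k N d ≠ 0 := by
    intro h0
    rw [h0, mul_zero] at h1
    exact hC h1
  have h2 := congrArg Polynomial.natDegree h1
  rw [Polynomial.natDegree_C, Polynomial.natDegree_mul hm.ne_zero hd0] at h2
  have h3 : (finSuccEquiv k N P).natDegree = 0 := by omega
  have h4 : finSuccEquiv k N P = 1 := hm.natDegree_eq_zero.1 h3
  have h5 : P = 1 := (finSuccEquiv k N).injective (by rw [h4, map_one])
  exact hP.irr.not_isUnit (by rw [h5]; exact isUnit_one)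

end poly

section val

variable {Ω : Type} [Field Ω] (𝒪 : ValuationSubring Ω)

theorem vle {a : Ω} : 𝒪.valuation a ≤ 1 ↔ a ∈ 𝒪 := 𝒪.valuation_le_one_iff a

theorem vle_mul {a : Ω} (ha : a ∈ 𝒪) {b : Ω} {γ : 𝒪.ValueGroup} (hb : 𝒪.valuation b ≤ γ) :
    𝒪.valuation (a * b) ≤ γ := by
  rw [map_mul]
  calc 𝒪.valuation a * 𝒪.valuation b ≤ 1 * γ := mul_le_mul' ((vle 𝒪).2 ha) hb
    _ = γ := one_mul γ

theorem div_mem {a b : Ω} (hb : b ≠ 0) (h : 𝒪.valuation a ≤ 𝒪.valuation b) : a / b ∈ 𝒪 := by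
  rw [← vle, map_div₀]
  exact div_le_one_of_le₀ h zero_le

theorem v_unit {a b : Ω} (ha : a ∈ 𝒪) (hb : b ∈ 𝒪) (h : a * b = 1) : 𝒪.valuation a = 1 := by
  refine le_antisymm ((vle 𝒪).2 ha) ?_
  have h1 : 𝒪.valuation a * 𝒪.valuation b = 1 := by rw [← map_mul, h, map_one]
  calc (1 : 𝒪.ValueGroup) = 𝒪.valuation a * 𝒪.valuation b := h1.symm
    _ ≤ 𝒪.valuation a * 1 := mul_le_mul' le_rfl ((vle 𝒪).2 hb)
    _ = 𝒪.valuation a := mul_one _

theorem v_scal {k : Type} [Field k] (g : k →+* Ω) (hg : ∀ a, g a ∈ 𝒪) {a : k} (ha : a ≠ 0) :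
    𝒪.valuation (g a) = 1 :=
  v_unit 𝒪 (hg a) (hg a⁻¹) (by rw [← map_mul, mul_inv_cancel₀ ha, map_one])

/-- values of a polynomial at two close points -/
theorem lip {L : ℕ} {k : Type} [Field k] (g : k →+* Ω) (hg : ∀ a, g a ∈ 𝒪)
    (y y' : Fin L → Ω) (hy : ∀ l, y l ∈ 𝒪) (hy' : ∀ l, y' l ∈ 𝒪) (γ : 𝒪.ValueGroup)
    (h : ∀ l, 𝒪.valuation (y l - y' l) ≤ γ) (c : Po L k) :
    c.eval₂ g y' ∈ 𝒪 ∧ 𝒪.valuation (c.eval₂ g y - c.eval₂ g y') ≤ γ := by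
  induction c using MvPolynomial.induction_on with
  | C a =>
    rw [eval₂_C, eval₂_C, sub_self, map_zero]
    exact ⟨hg a, zero_le⟩
  | add p q hp hq =>
    rw [eval₂_add, eval₂_add]
    refine ⟨𝒪.add_mem _ _ hp.1 hq.1, ?_⟩
    rw [show p.eval₂ g y + q.eval₂ g y - (p.eval₂ g y' + q.eval₂ g y') =
      (p.eval₂ g y - p.eval₂ g y') + (q.eval₂ g y - q.eval₂ g y') by ring]
    exact (𝒪.valuation.map_add _ _).trans (max_le hp.2 hq.2)
  | mul_X p l hp =>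
    rw [eval₂_mul, eval₂_mul, eval₂_X, eval₂_X]
    refine ⟨𝒪.mul_mem _ _ hp.1 (hy' l), ?_⟩
    rw [show p.eval₂ g y * y l - p.eval₂ g y' * y' l =
      y l * (p.eval₂ g y - p.eval₂ g y') + p.eval₂ g y' * (y l - y' l) by ring]
    exact (𝒪.valuation.map_add _ _).trans
      (max_le (vle_mul 𝒪 (hy l) hp.2) (vle_mul 𝒪 hp.1 (h l)))

theorem pow_sub (a b : Ω) (ha : a ∈ 𝒪) (hb : b ∈ 𝒪) (j : ℕ) :
    𝒪.valuation (a ^ j - b ^ j) ≤ 𝒪.valuation (a - b) := by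
  induction j with
  | zero => rw [pow_zero, pow_zero, sub_self, map_zero]; exact zero_le
  | succ j ih =>
    rw [show a ^ (j + 1) - b ^ (j + 1) = a * (a ^ j - b ^ j) + b ^ j * (a - b) by ring]
    exact (𝒪.valuation.map_add _ _).trans
      (max_le (vle_mul 𝒪 ha ih) (vle_mul 𝒪 (pow_mem hb j) le_rfl))

theorem sum_vle {A : Type} (S : Finset A) (f : A → Ω) (γ : 𝒪.ValueGroup)
    (h : ∀ a ∈ S, 𝒪.valuation (f a) ≤ γ) : 𝒪.valuation (∑ a ∈ S, f a) ≤ γ :=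
  𝒪.valuation.map_sum_le h

end val

theorem sum_erase_div {A Ω : Type} [DecidableEq A] [Field Ω] (S : Finset A) (E a : A → Ω)
    (h : ∀ σ ∈ S, a σ ≠ 0) :
    ∑ σ ∈ S, E σ * ∏ σ' ∈ S.erase σ, a σ' = (∏ σ ∈ S, a σ) * ∑ σ ∈ S, E σ / a σ := by
  rw [Finset.mul_sum]
  refine Finset.sum_congr rfl fun σ hσ => ?_
  rw [← Finset.mul_prod_erase S a hσ]
  have := h σ hσ
  field_simp

section ctx

variable {N : ℕ} {k κ Ω : Type} [Field k] [Field κ] [Algebra k κ] [Field Ω]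
  {ψ : Po (N + 1) k →ₐ[k] PowerSeries κ} {ι : PowerSeries κ →+* Ω} {𝒪 : ValuationSubring Ω}

theorem g_mem (hD : Dom ι 𝒪) (a : k) : (ι.comp (algebraMap k (PowerSeries κ))) a ∈ 𝒪 := hD.mem _

variable (ι ψ) in
/-- the values at the power series point -/
theorem J_eq (c : Po (N + 1) k) : ι (ψ c) = c.eval₂ (ι.comp (algebraMap k (PowerSeries κ)))
    (Fin.cons (ι (ψ (X 0))) (fun l => ι (ψ (X l.succ)))) := by
  induction c using MvPolynomial.induction_on with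
  | C a =>
    rw [eval₂_C, ← MvPolynomial.algebraMap_eq, ψ.commutes]; rfl
  | add p q hp hq => rw [map_add, map_add, eval₂_add, hp, hq]
  | mul_X p l hp =>
    rw [map_mul, map_mul, eval₂_mul, eval₂_X, hp]
    refine congrArg (fun z => _ * z) ?_
    refine Fin.cases ?_ (fun l' => ?_) l
    · rfl
    · rfl

theorem unit_of_rd (hD : Dom ι 𝒪) {c : Po (N + 1) k} (hc : rd ψ c ≠ 0) :
    𝒪.valuation (ι (ψ c)) = 1 :=
  v_unit 𝒪 (hD.mem _) (hD.mem (ψ c)⁻¹) (by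
    rw [← map_mul, PowerSeries.mul_inv_cancel _ hc, map_one])

variable (ι ψ) in
/-- the value of the difference quotient -/
noncomputable def EE (P : Po (N + 1) k) (r : ℕ) (ξ : Ω) : Ω :=
  ∑ j ∈ Finset.range r, ι (ψ (ec P j)) * ξ ^ j

theorem EE_mem (hD : Dom ι 𝒪) (P : Po (N + 1) k) (r : ℕ) {ξ : Ω} (hξ : ξ ∈ 𝒪) :
    EE ψ ι P r ξ ∈ 𝒪 :=
  sum_mem fun j _ => mul_mem (hD.mem _) (pow_mem hξ j)

theorem ne_up (hD : Dom ι 𝒪) {P : Po (N + 1) k} {r : ℕ} (hP : Hyp P r) (hA : Arc P ψ) {c : Po N k}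
    (hc : c ≠ 0) : ψ (up c) ≠ 0 ∧ ι (ψ (up c)) ≠ 0 := by
  have h1 : ψ (up c) ≠ 0 := fun h => not_dvd_up hP hc ((hA _).1 h)
  exact ⟨h1, fun h => h1 (hD.inj (by rw [h, map_zero]))⟩

theorem EE_mul (hEKR : T_EKR) (hD : Dom ι 𝒪) {P : Po (N + 1) k} {r : ℕ} (hP : Hyp P r)
    (hA : Arc P ψ) (i : Fin N) {ξ ρ : Ω} (hξ : ξ ∈ 𝒪) (hρ : ρ ∈ 𝒪) (hz : evx ι ψ i ξ ρ P = 0) :
    𝒪.valuation (EE ψ ι P r ξ * (ξ - ι (ψ (X 0)))) ≤ 𝒪.valuation (ι (ψ (X i.succ)) - ρ) := by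
  obtain ⟨h1, -⟩ := hEKR N r k Ω (ι.comp (algebraMap k (PowerSeries κ))) P hP (ι (ψ (X 0))) ξ
    (fun l => ι (ψ (X l.succ)))
  simp only [← J_eq ψ ι] at h1
  have h2 : ι (ψ P) = 0 := by rw [(hA P).2 (dvd_refl P), map_zero]
  rw [h2, sub_zero] at h1
  have h3 := (lip 𝒪 (ι.comp (algebraMap k (PowerSeries κ))) (g_mem hD)
    (Fin.cons ξ (fun l => ι (ψ (X l.succ))) : Fin (N + 1) → Ω)
    (Fin.cons ξ (fun l => if l = i then ρ else ι (ψ (X l.succ))) : Fin (N + 1) → Ω)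
    (Fin.cases hξ fun l => hD.mem _) (Fin.cases hξ fun l => by
      rw [Fin.cons_succ]
      split_ifs
      · exact hρ
      · exact hD.mem _) (𝒪.valuation (ι (ψ (X i.succ)) - ρ))
    (Fin.cases (by rw [Fin.cons_zero, Fin.cons_zero, sub_self, map_zero]; exact zero_le)
      fun l => by
      rw [Fin.cons_succ, Fin.cons_succ]
      by_cases hl : l = i
      · rw [if_pos hl, hl]
      · rw [if_neg hl, sub_self, map_zero]; exact zero_le) P).2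
  have h4 : P.eval₂ (ι.comp (algebraMap k (PowerSeries κ)))
      (Fin.cons ξ (fun l => if l = i then ρ else ι (ψ (X l.succ))) : Fin (N + 1) → Ω) = 0 := hz
  rw [h4, sub_zero, ← h1] at h3
  exact h3

/-- a point of `H` which is close to the power series point -/
theorem close (hD : Dom ι 𝒪) (i : Fin N) {ξ ρ : Ω} (hξ : ξ ∈ 𝒪) (hρ : ρ ∈ 𝒪)
    (h1 : 𝒪.valuation (ι (ψ (X 0)) - ξ) < 1) (h2 : 𝒪.valuation (ι (ψ (X i.succ)) - ρ) < 1)
    {c : Po (N + 1) k} (hz : evx ι ψ i ξ ρ c = 0) : rd ψ c = 0 := by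
  by_contra hc
  have h3 := (lip 𝒪 (ι.comp (algebraMap k (PowerSeries κ))) (g_mem hD)
    (Fin.cons (ι (ψ (X 0))) (fun l => ι (ψ (X l.succ))) : Fin (N + 1) → Ω)
    (Fin.cons ξ (fun l => if l = i then ρ else ι (ψ (X l.succ))) : Fin (N + 1) → Ω)
    (Fin.cases (hD.mem _) fun l => hD.mem _) (Fin.cases hξ fun l => by
      rw [Fin.cons_succ]
      split_ifs
      · exact hρ
      · exact hD.mem _)
    (max (𝒪.valuation (ι (ψ (X 0)) - ξ)) (𝒪.valuation (ι (ψ (X i.succ)) - ρ)))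
    (Fin.cases (by rw [Fin.cons_zero, Fin.cons_zero]; exact le_max_left _ _)
      fun l => by
      rw [Fin.cons_succ, Fin.cons_succ]
      by_cases hl : l = i
      · rw [if_pos hl, hl]; exact le_max_right _ _
      · rw [if_neg hl, sub_self, map_zero]; exact zero_le) c).2
  have h4 : c.eval₂ (ι.comp (algebraMap k (PowerSeries κ)))
      (Fin.cons ξ (fun l => if l = i then ρ else ι (ψ (X l.succ))) : Fin (N + 1) → Ω) = 0 := hz
  rw [h4, sub_zero, ← J_eq ψ ι, unit_of_rd hD hc] at h3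
  exact absurd h3 (not_le.2 (max_lt h1 h2))

/-- the numerator -/
theorem num_eq {P : Po (N + 1) k} {H : Ideal (Po (N + 1) k)} {h : Po N k} {i : Fin N}
    {χ : Po N k} {U : ℕ → Po N k} {δ : ℕ} {ρ ξ : Fin δ → Ω} {Rt : Finset Ω} {s : k} (r : ℕ)
    (hT : Trd P H h i χ U ψ ι 𝒪 δ ρ ξ Rt s) (h0 : ι (ψ (up χ)) ≠ 0) :
    (∀ σ, ι (ψ (X i.succ)) - ρ σ ≠ 0) ∧
    ι (ψ (num P r U)) = ι (ψ (up χ)) *
      ∑ σ, EE ψ ι P r (ξ σ) / (ι (ψ (X i.succ)) - ρ σ) := by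
  have hne : ∀ σ, ι (ψ (X i.succ)) - ρ σ ≠ 0 := by
    intro σ hσ
    apply h0
    rw [hT.chi]
    exact Finset.prod_eq_zero (Finset.mem_univ σ) hσ
  refine ⟨hne, ?_⟩
  rw [hT.chi, ← sum_erase_div Finset.univ _ _ fun σ _ => hne σ]
  unfold num EE
  rw [map_sum, map_sum]
  simp only [map_mul, hT.trc, Finset.mul_sum, Finset.sum_mul]
  rw [Finset.sum_comm]
  refine Finset.sum_congr rfl fun σ _ => Finset.sum_congr rfl fun j _ => ?_
  ring

end ctx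

end Pool.Agent.H49.VZ
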