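import Pool.Agent.H49.VZ.Base

/-!
# (LA1) no pole away from `H`
-/

open MvPolynomial
open Pool.Agent.H12.ZD (pmap)
open Pool.Agent.H18.HIT Pool.Agent.H18.HX Pool.Agent.H18.VZ

namespace Pool.Agent.H49.VZ

theorem pf_LA1 (hEKR : T_EKR) : T_LA1 := by
  classical
  intro N r k κ Ω _ _ _ _ _ P H h i χ U ψ ι 𝒪 δ ρ ξ Rt s hP hPH hA hχ hD hT hex
  obtain ⟨h1, h2⟩ := ne_up hD hP hA hχ
  obtain ⟨hne, hnum⟩ := num_eq r hT h2
  refine hD.dvd _ _ h1 ?_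
  rw [hnum, mul_div_cancel_left₀ _ h2]
  refine sum_mem fun σ _ => div_mem 𝒪 (hne σ) ?_
  rcases lt_or_ge (𝒪.valuation (ι (ψ (X i.succ)) - ρ σ)) 1 with hv | hv
  · have hx : 1 ≤ 𝒪.valuation (ι (ψ (X 0)) - ξ σ) := by
      by_contra hx
      obtain ⟨c, hc, hc'⟩ := hex
      exact hc' (close hD i (hT.xi σ) (hT.rho σ) (not_le.1 hx) hv (hT.zer σ c hc))
    have h3 := EE_mul hEKR hD hP hA i (hT.xi σ) (hT.rho σ) (hT.zer σ P hPH.mem)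
    refine le_trans ?_ h3
    rw [map_mul, Valuation.map_sub_swap]
    calc 𝒪.valuation (EE ψ ι P r (ξ σ)) = 𝒪.valuation (EE ψ ι P r (ξ σ)) * 1 := (mul_one _).symm
      _ ≤ _ := mul_le_mul' le_rfl hx
  · exact ((vle 𝒪).2 (EE_mem hD P r (hT.xi σ))).trans hv

end Pool.Agent.H49.VZ
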