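import Pool.Agent.H49.VZ.Base

/-!
# (LA2) the pole along `H`
-/

open MvPolynomial
open Pool.Agent.H12.ZD (pmap)
open Pool.Agent.H18.HIT Pool.Agent.H18.HX Pool.Agent.H18.VZ

namespace Pool.Agent.H49.VZ

theorem pf_LA2 (hEKR : T_EKR) : T_LA2 := by
  classical
  intro N r k κ Ω _ _ _ _ _ P H h i χ U ψ ι 𝒪 δ ρ ξ Rt s hP hPH hA hχ hD hT hrd hP0
  obtain ⟨h1, h2⟩ := ne_up hD hP hA hχ
  obtain ⟨k1, k2⟩ := ne_up hD hP hA hPH.irr.ne_zero
  obtain ⟨hne, hnum⟩ := num_eq r hT h2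
  have hvD : 𝒪.valuation (ι (ψ (pderiv 0 P))) = 1 := unit_of_rd hD hP0
  have hD0 : ι (ψ (pderiv 0 P)) ≠ 0 := by
    intro e; rw [e, map_zero] at hvD; exact zero_ne_one hvD
  have hψD : ψ (pderiv 0 P) ≠ 0 := fun e => hD0 (by rw [e, map_zero])
  have hden : ψ (pderiv 0 P * up χ * up h) ≠ 0 := by
    rw [map_mul, map_mul]
    exact mul_ne_zero (mul_ne_zero hψD h1) k1
  refine hD.dvd _ _ hden ?_
  -- the logarithmic derivative of `h`
  set τ := ι (ψ (X i.succ)) with hτ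
  set g : k →+* Ω := ι.comp (algebraMap k (PowerSeries κ)) with hg
  have hs : g s ≠ 0 := fun e => hT.sne (g.injective (by rw [e, map_zero]))
  have hh : ι (ψ (up h)) = g s * ∏ β ∈ Rt, (τ - β) := hT.hh
  have hb : ∀ β ∈ Rt, τ - β ≠ 0 := by
    intro β hβ e
    apply k2
    rw [hh, Finset.prod_eq_zero hβ e, mul_zero]
  have hd : ι (ψ (up (pderiv i h))) = ι (ψ (up h)) * ∑ β ∈ Rt, 1 / (τ - β) := by
    have e1 := hT.hd 1
    rw [Function.iterate_one, Function.iterate_one, Polynomial.derivative_prod_finset] at e1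
    rw [e1, hh, mul_assoc, ← sum_erase_div Rt (fun _ => 1) (fun β => τ - β) hb]
    refine congrArg (fun z => g s * z) ?_
    rw [Polynomial.eval_finsetSum]
    refine Finset.sum_congr rfl fun β _ => ?_
    rw [Polynomial.derivative_X_sub_C, mul_one, one_mul, Polynomial.eval_prod]
    refine Finset.prod_congr rfl fun β' _ => ?_
    rw [Polynomial.eval_sub, Polynomial.eval_X, Polynomial.eval_C]
  have hquot : ι (ψ (num P r U * up h - pderiv 0 P * up χ * up (pderiv i h))) /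
      ι (ψ (pderiv 0 P * up χ * up h)) =
      (∑ σ, EE ψ ι P r (ξ σ) / (τ - ρ σ)) / ι (ψ (pderiv 0 P)) - ∑ β ∈ Rt, 1 / (τ - β) := by
    rw [map_sub, map_sub, map_mul, map_mul, map_mul, map_mul, map_mul, map_mul, map_mul, map_mul,
      map_mul, map_mul, hnum, hd]
    field_simp
  rw [hquot]
  obtain ⟨σ₀, hρ0, hξ0, huniq, hβ⟩ := hT.one hrd
  rw [← Finset.add_sum_erase Finset.univ _ (Finset.mem_univ σ₀),
    ← Finset.add_sum_erase Rt _ (hT.rho_mem σ₀)]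
  set D := ι (ψ (pderiv 0 P)) with hDdef
  have hE := fun σ => EE_mul hEKR hD hP hA i (hT.xi σ) (hT.rho σ) (hT.zer σ P hPH.mem)
  -- the terms away from `H`
  have ha : ∀ σ ∈ Finset.univ.erase σ₀, EE ψ ι P r (ξ σ) / (τ - ρ σ) ∈ 𝒪 := by
    intro σ hσ
    have hσ' : σ ≠ σ₀ := Finset.ne_of_mem_erase hσ
    refine div_mem 𝒪 (hne σ) ?_
    rcases lt_or_ge (𝒪.valuation (τ - ρ σ)) 1 with hv | hv
    · have hx : 1 ≤ 𝒪.valuation (ι (ψ (X 0)) - ξ σ) := by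
        by_contra hx
        exact hσ' (huniq σ hv (not_le.1 hx))
      refine le_trans ?_ (hE σ)
      rw [map_mul, Valuation.map_sub_swap]
      calc 𝒪.valuation (EE ψ ι P r (ξ σ)) = 𝒪.valuation (EE ψ ι P r (ξ σ)) * 1 :=
            (mul_one _).symm
        _ ≤ _ := mul_le_mul' le_rfl hx
    · exact ((vle 𝒪).2 (EE_mem hD P r (hT.xi σ))).trans hv
  have hbm : ∀ β ∈ Rt.erase (ρ σ₀), 1 / (τ - β) ∈ 𝒪 := by
    intro β hβ'
    have hm := Finset.mem_of_mem_erase hβ'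
    refine div_mem 𝒪 (hb β hm) ?_
    rw [map_one]
    by_contra hc
    exact Finset.ne_of_mem_erase hβ' (hβ β hm (not_le.1 hc))
  have hDinv : D⁻¹ ∈ 𝒪 := by
    rw [← vle, map_inv₀, hvD, inv_one]
  -- the pole
  have hdiff : 𝒪.valuation (EE ψ ι P r (ξ σ₀) - D) ≤ 𝒪.valuation (ξ σ₀ - ι (ψ (X 0))) := by
    obtain ⟨-, e2⟩ := hEKR N r k Ω g P hP (ι (ψ (X 0))) (ξ σ₀) (fun l => ι (ψ (X l.succ)))
    simp only [hg, ← J_eq ψ ι] at e2
    rw [hDdef, ← e2]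
    unfold EE
    rw [← Finset.sum_sub_distrib]
    refine sum_vle 𝒪 _ _ _ fun j _ => ?_
    rw [← mul_sub]
    exact vle_mul 𝒪 (hD.mem _) (pow_sub 𝒪 _ _ (hT.xi σ₀) (hD.mem _) j)
  have hlt : 𝒪.valuation (EE ψ ι P r (ξ σ₀) - D) < 1 := by
    refine lt_of_le_of_lt hdiff ?_
    rw [Valuation.map_sub_swap]; exact hξ0
  have hvE : 1 ≤ 𝒪.valuation (EE ψ ι P r (ξ σ₀)) := by
    by_contra hc
    have e1 : D = EE ψ ι P r (ξ σ₀) - (EE ψ ι P r (ξ σ₀) - D) := by ring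
    have e2 := 𝒪.valuation.map_sub (EE ψ ι P r (ξ σ₀)) (EE ψ ι P r (ξ σ₀) - D)
    rw [← e1, hvD] at e2
    exact absurd e2 (not_le.2 (max_lt (not_le.1 hc) hlt))
  have hle : 𝒪.valuation (EE ψ ι P r (ξ σ₀) - D) ≤ 𝒪.valuation (τ - ρ σ₀) := by
    refine hdiff.trans (le_trans ?_ (hE σ₀))
    rw [map_mul]
    calc 𝒪.valuation (ξ σ₀ - ι (ψ (X 0))) = 1 * 𝒪.valuation (ξ σ₀ - ι (ψ (X 0))) :=
          (one_mul _).symm
      _ ≤ _ := mul_le_mul' hvE le_rfl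
  have hc : (EE ψ ι P r (ξ σ₀) - D) / (τ - ρ σ₀) ∈ 𝒪 := div_mem 𝒪 (hne σ₀) hle
  have hfin : (EE ψ ι P r (ξ σ₀) / (τ - ρ σ₀) +
        ∑ σ ∈ Finset.univ.erase σ₀, EE ψ ι P r (ξ σ) / (τ - ρ σ)) / D -
      (1 / (τ - ρ σ₀) + ∑ β ∈ Rt.erase (ρ σ₀), 1 / (τ - β)) =
      D⁻¹ * ((EE ψ ι P r (ξ σ₀) - D) / (τ - ρ σ₀)) +
        D⁻¹ * (∑ σ ∈ Finset.univ.erase σ₀, EE ψ ι P r (ξ σ) / (τ - ρ σ)) -
        ∑ β ∈ Rt.erase (ρ σ₀), 1 / (τ - β) := by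
    have := hne σ₀
    field_simp
    ring
  rw [hfin]
  exact sub_mem (add_mem (mul_mem hDinv hc) (mul_mem hDinv (sum_mem ha))) (sum_mem hbm)

end Pool.Agent.H49.VZ
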