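import Pool.Agent.H49.VZ.Base

/-!
# (LA3) a uniform bound for the pole
-/

open MvPolynomial
open Pool.Agent.H12.ZD (pmap)
open Pool.Agent.H18.HIT Pool.Agent.H18.HX Pool.Agent.H18.VZ

namespace Pool.Agent.H49.VZ

theorem pf_LA3 (_hEKR : T_EKR) : T_LA3 := by
  classical
  intro N r k κ Ω _ _ _ _ _ P H h i χ U ψ ι 𝒪 δ ρ ξ Rt s B hP hPH hA hχ hD hT hB
  obtain ⟨h1, h2⟩ := ne_up hD hP hA hχ
  obtain ⟨k1, k2⟩ := ne_up hD hP hA hPH.irr.ne_zero
  obtain ⟨hne, hnum⟩ := num_eq r hT h2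
  set τ := ι (ψ (X i.succ)) with hτ
  set g : k →+* Ω := ι.comp (algebraMap k (PowerSeries κ)) with hg
  have hgm : ∀ a, g a ∈ 𝒪 := fun a => hD.mem _
  set z := ι (PowerSeries.X) with hz
  set Q : Polynomial Ω := ∏ β ∈ Rt, (Polynomial.X - Polynomial.C β) with hQ
  set d : ℕ → Ω := fun j => ι (ψ (up ((pderiv i)^[j] h))) with hdd
  have hd : ∀ j, d j = g s * (Polynomial.derivative^[j] Q).eval τ := hT.hd
  have hd0 : d 0 ≠ 0 := k2
  -- bounds for the values of the derivatives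
  have hdiv : ∀ j, ψ (up h) ∣ PowerSeries.X ^ (j * B) * ψ (up ((pderiv i)^[j] h)) := by
    intro j
    induction j with
    | zero => rw [Nat.zero_mul, pow_zero, one_mul, Function.iterate_zero, id_eq]
    | succ j ih =>
      rw [Function.iterate_succ_apply']
      refine ih.trans ?_
      rw [Nat.succ_mul, pow_add, mul_assoc]
      exact mul_dvd_mul_left _ (hB _)
  have hdv : ∀ j, 𝒪.valuation (d j) * 𝒪.valuation (z ^ B) ^ j ≤ 𝒪.valuation (d 0) := by
    intro j
    obtain ⟨e, he⟩ := hdiv j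
    have h3 := congrArg ι he
    rw [map_mul, map_mul, map_pow] at h3
    have h4 : z ^ (j * B) * d j = d 0 * ι e := h3
    rw [← map_pow, ← map_mul, ← pow_mul, mul_comm B j, mul_comm (d j), h4, map_mul]
    calc 𝒪.valuation (d 0) * 𝒪.valuation (ι e) ≤ 𝒪.valuation (d 0) * 1 :=
          mul_le_mul' le_rfl ((vle 𝒪).2 (hD.mem e))
      _ = _ := mul_one _
  have hvs : 𝒪.valuation (g s) = 1 := v_scal 𝒪 g hgm hT.sne
  have hhas : ∀ j, 𝒪.valuation ((Polynomial.hasseDeriv j Q).eval τ) = 𝒪.valuation (d j) := by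
    intro j
    have hf : ((j.factorial : ℕ) : Ω) = g ((j.factorial : ℕ) : k) := (map_natCast g _).symm
    have hvf : 𝒪.valuation ((j.factorial : ℕ) : Ω) = 1 := by
      rw [hf]
      exact v_scal 𝒪 g hgm (by exact_mod_cast Nat.factorial_ne_zero j)
    rw [hd j, ← Polynomial.factorial_smul_hasseDeriv, map_mul, hvs, one_mul]
    rw [show (j.factorial • Polynomial.hasseDeriv j) Q =
      j.factorial • Polynomial.hasseDeriv j Q from rfl, nsmul_eq_mul, Polynomial.eval_mul,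
      Polynomial.eval_natCast, map_mul, hvf, one_mul]
  have key : ∀ β ∈ Rt, 𝒪.valuation (z ^ B) ≤ 𝒪.valuation (τ - β) := by
    intro β hβ
    by_contra hc
    have hc' := not_le.1 hc
    have hQβ : Q.eval β = 0 := by
      rw [hQ, Polynomial.eval_prod]
      exact Finset.prod_eq_zero hβ (by simp)
    have hT1 : (Polynomial.taylor τ Q).eval (β - τ) = 0 := by
      rw [Polynomial.taylor_eval, sub_add_cancel, hQβ]
    rw [Polynomial.eval_eq_sum_range, Finset.sum_range_succ', pow_zero, mul_one] at hT1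
    simp only [Polynomial.taylor_coeff] at hT1
    have hlt : 𝒪.valuation (∑ j ∈ Finset.range (Polynomial.taylor τ Q).natDegree,
        (Polynomial.hasseDeriv (j + 1) Q).eval τ * (β - τ) ^ (j + 1)) < 𝒪.valuation (d 0) := by
      refine Valuation.map_sum_lt _ ((𝒪.valuation.ne_zero_iff).2 hd0) fun j _ => ?_
      rw [map_mul, hhas, map_pow]
      rcases eq_or_ne (𝒪.valuation (d (j + 1))) 0 with e | e
      · rw [e, zero_mul]
        exact zero_lt_iff.2 ((𝒪.valuation.ne_zero_iff).2 hd0)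
      · refine lt_of_lt_of_le ?_ (hdv (j + 1))
        refine (mul_lt_mul_iff_right₀ (zero_lt_iff.2 e)).2 ?_
        rw [Valuation.map_sub_swap]
        exact pow_lt_pow_left₀ hc' zero_le (Nat.succ_ne_zero j)
    have hneg : ∑ j ∈ Finset.range (Polynomial.taylor τ Q).natDegree,
        (Polynomial.hasseDeriv (j + 1) Q).eval τ * (β - τ) ^ (j + 1) =
        -(Polynomial.hasseDeriv 0 Q).eval τ := by linear_combination hT1
    rw [hneg, Valuation.map_neg, hhas] at hlt
    exact lt_irrefl _ hlt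
  refine hD.dvd _ _ h1 ?_
  rw [map_mul, map_pow, hnum, ← hz]
  rw [show z ^ B * (ι (ψ (up χ)) * ∑ σ, EE ψ ι P r (ξ σ) / (τ - ρ σ)) / ι (ψ (up χ)) =
    ∑ σ, EE ψ ι P r (ξ σ) * (z ^ B / (τ - ρ σ)) by
      rw [mul_left_comm, mul_div_cancel_left₀ _ h2, Finset.mul_sum]
      exact Finset.sum_congr rfl fun σ _ => by ring]
  exact sum_mem fun σ _ => mul_mem (EE_mem hD P r (hT.xi σ))
    (div_mem 𝒪 (hne σ) (key _ (hT.rho_mem σ)))

end Pool.Agent.H49.VZ
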